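import Pool.Agent.P8H82.FF.Stm2

/-!
# Project FF, package FIB: the curves with full two-torsion and the pairs (parameter, twist)
-/

set_option autoImplicit false

namespace Pool.Agent.P8H21.FF

open NumberField Polynomial
open Pool.Agent.P8H82.FF
open Pool.Agent.Y729.AH

section field

variable {K : Type} [Field K]

/-- the difference of the class and its representative -/
theorem rp_mk (a : Kˣ) : ∃ g : Kˣ, (a : K) = rp (QuotientGroup.mk a : Tw K) * (g : K) ^ 2 := by
  have h1 : (QuotientGroup.mk (Quotient.out (QuotientGroup.mk a : Tw K)) : Tw K) = QuotientGroup.mk a :=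
    Quotient.out_eq _
  rw [QuotientGroup.eq] at h1
  obtain ⟨g, hg⟩ := h1
  refine ⟨g, ?_⟩
  have h2 : a = Quotient.out (QuotientGroup.mk a : Tw K) * g ^ 2 := by
    have h3 : g ^ 2 = (Quotient.out (QuotientGroup.mk a : Tw K))⁻¹ * a := hg
    rw [h3, mul_inv_cancel_left]
  unfold rp
  conv_lhs => rw [h2]
  rw [Units.val_mul, Units.val_pow_eq_pow_val]

theorem rp_ne (d : Tw K) : rp d ≠ 0 := Units.ne_zero _

theorem tw_eq {d d' : Tw K} {g : K} (hg : g ≠ 0) (h : rp d = g ^ 2 * rp d') : d = d' := by
  have h1 : (QuotientGroup.mk (Quotient.out d) : Tw K) = d := Quotient.out_eq _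
  have h2 : (QuotientGroup.mk (Quotient.out d') : Tw K) = d' := Quotient.out_eq _
  rw [← h1, ← h2, QuotientGroup.eq]
  refine ⟨(Units.mk0 g hg)⁻¹, ?_⟩
  change (Units.mk0 g hg)⁻¹ ^ 2 = (Quotient.out d)⁻¹ * Quotient.out d'
  have h3 : Quotient.out d = (Units.mk0 g hg) ^ 2 * Quotient.out d' := by
    apply Units.ext
    rw [Units.val_mul, Units.val_pow_eq_pow_val, Units.val_mk0]
    exact h
  rw [h3, mul_inv, inv_mul_cancel_right, inv_pow]

theorem crv_pm {p : K × Tw K} (hp : Ok p) : Pm (crv p) (rp p.2) (rp p.2 * p.1) := by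
  have h0 := rp_ne p.2
  refine pm_EE h0 (mul_ne_zero h0 hp.1) fun h => hp.2 ?_
  exact (mul_left_cancel₀ h0 ((mul_one (rp p.2)).trans h)).symm

/-- the polynomial of the points of order two -/
noncomputable def tp (E : WeierstrassCurve K) : K[X] :=
  C 4 * X ^ 3 + C E.b₂ * X ^ 2 + C (2 * E.b₄) * X + C E.b₆

theorem tp_eval (E : WeierstrassCurve K) (x : K) : (tp E).eval x = 0 ↔ Rt E x := by
  unfold tp Rt
  simp only [eval_add, eval_mul, eval_C, eval_pow, eval_X]

theorem tp_ne [CharZero K] (E : WeierstrassCurve K) : tp E ≠ 0 := by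
  intro h
  have h1 := congrArg (fun P : K[X] => P.coeff 3) h
  unfold tp at h1
  simp only [coeff_add, coeff_C_mul, coeff_X_pow, coeff_X, coeff_C, coeff_zero] at h1
  norm_num at h1

theorem tp_card [DecidableEq K] (E : WeierstrassCurve K) : (tp E).roots.toFinset.card ≤ 3 := by
  refine (Multiset.toFinset_card_le _).trans ((card_roots' _).trans ?_)
  unfold tp
  exact natDegree_cubic_le

end field

theorem fib : S_FIB := by
  intro K _ _
  classical
  constructor
  · intro E a b h
    have ha := h.1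
    obtain ⟨g, hg⟩ := rp_mk (Units.mk0 a ha)
    rw [Units.val_mk0] at hg
    set d : Tw K := QuotientGroup.mk (Units.mk0 a ha) with hd
    have hok : Ok ((b / a, d) : K × Tw K) := by
      refine ⟨div_ne_zero h.2.1 ha, fun h1 => h.2.2.1 ?_⟩
      exact ((div_eq_one_iff_eq ha).1 h1).symm
    refine ⟨(b / a, d), hok, rfl, ?_⟩
    have h0 := rp_ne d
    refine (cl_of h (crv_pm hok) ?_ g.ne_zero hg).symm
    change -(b / a) = -(rp d * (b / a) / rp d)
    rw [mul_div_assoc, mul_div_cancel₀ _ h0]
  · intro q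
    obtain ⟨E, hE⟩ : ∃ E : WeierstrassCurve K, cl E = q := Quotient.exists_rep q
    set S := (tp E).roots.toFinset with hS
    have hmem : ∀ x : K, Rt E x → x ∈ S := by
      intro x hx
      rw [hS, Multiset.mem_toFinset, mem_roots (tp_ne E)]
      exact (tp_eval E x).2 hx
    set T : Set (K × Tw K) := {p : K × Tw K | Ok p ∧ cl (crv p) = q} with hT
    -- the ordered roots of a pair
    have key : ∀ p : T, ∃ (u x : K), u ≠ 0 ∧ x ∈ S ∧ x + u ^ 2 * rp p.1.2 ∈ S ∧
        x + u ^ 2 * (rp p.1.2 * p.1.1) ∈ S := by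
      rintro ⟨p, hp, hq⟩
      rw [← hE] at hq
      obtain ⟨C, hC⟩ := cl_eq.1 hq.symm
      have h1 := pm_change (crv_pm hp) C
      rw [hC] at h1
      obtain ⟨-, -, -, x, h2, h3, h4⟩ := h1
      exact ⟨_, x, Units.ne_zero _, hmem _ h2, hmem _ h3, hmem _ h4⟩
    choose u x hu hx0 hx1 hx2 using key
    have hinj3 : ∀ p : T, Function.Injective (![(⟨x p, hx0 p⟩ : S), ⟨_, hx1 p⟩, ⟨_, hx2 p⟩] : Fin 3 → S) := by
      intro p
      have hd := rp_ne p.1.2
      have hl0 := p.2.1.1
      have hl1 := p.2.1.2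
      have hup := pow_ne_zero 2 (hu p)
      have n01 : x p ≠ x p + u p ^ 2 * rp p.1.2 := fun h => mul_ne_zero hup hd (left_eq_add.1 h)
      have n02 : x p ≠ x p + u p ^ 2 * (rp p.1.2 * p.1.1) :=
        fun h => mul_ne_zero hup (mul_ne_zero hd hl0) (left_eq_add.1 h)
      have n12 : x p + u p ^ 2 * rp p.1.2 ≠ x p + u p ^ 2 * (rp p.1.2 * p.1.1) := by
        intro h
        have h1 := mul_left_cancel₀ hup (add_left_cancel h)
        exact hl1 (mul_left_cancel₀ hd (h1.symm.trans (mul_one _).symm))
      intro i j hij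
      fin_cases i <;> fin_cases j
      · rfl
      · exact absurd (congrArg Subtype.val hij) n01
      · exact absurd (congrArg Subtype.val hij) n02
      · exact absurd (congrArg Subtype.val hij) n01.symm
      · rfl
      · exact absurd (congrArg Subtype.val hij) n12
      · exact absurd (congrArg Subtype.val hij) n02.symm
      · exact absurd (congrArg Subtype.val hij) n12.symm
      · rfl
    let F : T → (Fin 3 ↪ S) := fun p => ⟨_, hinj3 p⟩
    have hF : Function.Injective F := by
      intro p p' h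
      have g0 : x p = x p' := congrArg Subtype.val (DFunLike.congr_fun h 0)
      have g1 : x p + u p ^ 2 * rp p.1.2 = x p' + u p' ^ 2 * rp p'.1.2 :=
        congrArg Subtype.val (DFunLike.congr_fun h 1)
      have g2 : x p + u p ^ 2 * (rp p.1.2 * p.1.1) = x p' + u p' ^ 2 * (rp p'.1.2 * p'.1.1) :=
        congrArg Subtype.val (DFunLike.congr_fun h 2)
      rw [g0] at g1 g2
      have k1 := add_left_cancel g1
      have k2 := add_left_cancel g2
      have hd := rp_ne p.1.2
      have hup := pow_ne_zero 2 (hu p)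
      have hl : p.1.1 = p'.1.1 := by
        rw [← mul_assoc, ← mul_assoc, ← k1] at k2
        exact mul_left_cancel₀ (mul_ne_zero hup hd) k2
      have hdd : p.1.2 = p'.1.2 := by
        refine tw_eq (g := u p' / u p) (div_ne_zero (hu p') (hu p)) ?_
        rw [div_pow, div_mul_eq_mul_div, eq_div_iff hup, ← k1]
        ring
      exact Subtype.ext (Prod.ext hl hdd)
    have hfin : Finite T := Finite.of_injective F hF
    have hcard : Nat.card T ≤ 6 := by
      have h1 : Nat.card T ≤ Nat.card (Fin 3 ↪ S) := Nat.card_le_card_of_injective F hF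
      rw [Nat.card_eq_fintype_card (α := Fin 3 ↪ S), Fintype.card_embedding_eq, Fintype.card_fin,
        Fintype.card_coe] at h1
      have h3 : S.card ≤ 3 := tp_card E
      refine h1.trans ?_
      interval_cases S.card <;> decide
    refine ⟨Set.toFinite _, ?_⟩
    rw [← Nat.card_coe_set_eq]
    exact hcard

end Pool.Agent.P8H21.FF
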