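import Pool.Agent.P8H82.FF.Stm2
import Pool.Agent.P8H21.FF.Fib

/-!
# Project FF, package TAILX: the tail of the family of all curves
-/

set_option autoImplicit false

namespace Pool.Agent.P8H21.FF

open NumberField IsDedekindDomain Filter Topology
open Pool.Agent.P8H82.FF
open Pool.Agent.Y729.AH
open Pool.Agent.TH876.Loc
open Pool.Agent.H691R3 (fv Nv)
open Pool.Agent.P8H82.JG (Gold Triple rad height KK shp Rep S_HT S_RAD)
open Pool.Agent.P8H82.WS (lamT S_LAM)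

section rad

variable {K : Type} [Field K] [NumberField K]

theorem fv_one_of_notMem (v : Pr K) {x : 𝓞 K} (hx : x ∉ v.asIdeal) : fv v (x : K) = 1 := by
  rw [Pool.Agent.Y729.FW.fv_eq_one_iff]
  refine le_antisymm (v.valuation_le_one x) (not_lt.1 fun h => hx ?_)
  exact (v.valuation_lt_one_iff_mem x).1 h

/-- the radical is at least the product of the norms of the primes of the parameter -/
theorem nn_le_rad {t : 𝓞 K × 𝓞 K × 𝓞 K} (ht : Triple t) {l : K} (hl : lamT t = l) (D : Finset (Pr K))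
    (hD : D ⊆ sp (-l)) : nn D ≤ rad t := by
  classical
  have hfin : {P : Pr K | t.1 * t.2.1 * t.2.2 ∈ P.asIdeal}.Finite := by
    have h0 : (((t.1 * t.2.1 * t.2.2 : 𝓞 K)) : K) ≠ 0 := by
      have := ht.ne
      exact_mod_cast this
    refine (Pool.Agent.H691R3.fv_support_finite h0).subset ?_
    intro v hv
    change fv v _ ≠ 1
    rw [Ne, Pool.Agent.Y729.FW.fv_eq_one_iff]
    exact ((v.valuation_lt_one_iff_mem _).2 hv).ne
  have e : rad t = nn hfin.toFinset := by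
    unfold rad nn Nv
    exact finprod_mem_eq_finite_toFinset_prod _ hfin
  rw [e]
  refine nn_mono fun v hv => ?_
  rw [Set.Finite.mem_toFinset]
  change t.1 * t.2.1 * t.2.2 ∈ v.asIdeal
  by_contra hc
  have h3 : t.1 ∉ v.asIdeal := fun h => hc (v.asIdeal.mul_mem_right _ (v.asIdeal.mul_mem_right _ h))
  have h4 : t.2.1 ∉ v.asIdeal := fun h => hc (v.asIdeal.mul_mem_right _ (v.asIdeal.mul_mem_left _ h))
  have h5 : t.2.2 ∉ v.asIdeal := fun h => hc (v.asIdeal.mul_mem_left _ h)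
  have hne := ht.ne
  have hc0 : (t.2.2 : K) ≠ 0 := by
    have : t.2.2 ≠ 0 := right_ne_zero_of_mul hne
    exact_mod_cast this
  have ha0 : (t.1 : K) ≠ 0 := by
    have : t.1 ≠ 0 := left_ne_zero_of_mul (left_ne_zero_of_mul hne)
    exact_mod_cast this
  have hb0 : (t.2.1 : K) ≠ 0 := by
    have : t.2.1 ≠ 0 := right_ne_zero_of_mul (left_ne_zero_of_mul hne)
    exact_mod_cast this
  have hsum : (t.1 : K) + t.2.1 + t.2.2 = 0 := by
    have := congrArg (fun x : 𝓞 K => (x : K)) ht.sum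
    simpa using this
  have e1 : -l = (t.1 : K) / t.2.2 := by
    rw [← hl]
    unfold lamT
    ring
  have e2 : -l + 1 = -((t.2.1 : K) / t.2.2) := by
    rw [e1]
    field_simp
    linear_combination hsum
  have hpt : Pt (-l) := by
    refine ⟨?_, ?_⟩
    · rw [e1]
      exact div_ne_zero ha0 hc0
    · rw [e2]
      exact neg_ne_zero.2 (div_ne_zero hb0 hc0)
  refine (mem_sp hpt v).1 (hD hv) ⟨?_, ?_⟩
  · rw [e1, map_div₀, fv_one_of_notMem v h3, fv_one_of_notMem v h5, div_one]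
  · rw [e2, (fv v).map_neg, map_div₀, fv_one_of_notMem v h4, fv_one_of_notMem v h5, div_one]

end rad

theorem crv_disc {K : Type} [Field K] [NumberField K] {p : K × Tw K} (hp : Ok p) : (crv p).Δ ≠ 0 := by
  have h := crv_pm hp
  rw [(pm_disc h).1]
  exact mul_ne_zero (by norm_num) (mul_ne_zero (mul_ne_zero (pow_ne_zero _ h.1) (pow_ne_zero _ h.2.1))
    (pow_ne_zero _ (sub_ne_zero.2 h.2.2.1)))

open Classical in
/-- the lower bound for the tail parameter -/
theorem tail_ineq (hhgt : S_HGTX) (hlam : S_LAM) (hht : S_HT) (hrad : S_RAD) {K : Type} [Field K] [NumberField K]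
    {σ τ : K →+* ℝ} (hG : Gold K σ τ) {R : ℝ} (hR : 1 ≤ R) {p : K × Tw K} (hp : Ok p)
    (hn : ¬ (nn (AA (crv p)) ≤ R ∧ ∃ t : 𝓞 K × 𝓞 K × 𝓞 K, Triple t ∧ lamT t = p.1 ∧
        (Ideal.absNorm (Ideal.span {t.1 * t.2.1 * t.2.2}) : ℝ) ≤ R * rad t ∧
        shp σ τ t ∈ KK R ×ˢ KK R)) :
    Real.log (R / 2) ≤ 3 * hgt (-p.1) - Real.log (nn (sp (-p.1) \ T2 K)) +
          2 * Real.log (nn (AA (crv p) ∩ sp (-p.1))) + Real.log (nn (AA (crv p) \ sp (-p.1))) := by
  obtain ⟨-, hex, -⟩ := hlam K hG.rank hG.five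
  obtain ⟨t, ht, htl⟩ := hex p.1 hp.1 hp.2
  obtain ⟨-, hr1, ⟨w, hw0, hw⟩, -, hwN⟩ := hrad K t ht
  obtain ⟨-, hwN⟩ := hwN w hw
  obtain ⟨-, hH⟩ := hht K σ τ hG t w ht hw
  have hhg := hhgt K σ τ hG t ht
  rw [htl] at hhg
  have hNw : (1 : ℝ) ≤ (Ideal.absNorm w : ℝ) := by
    have h1 : Ideal.absNorm w ≠ 0 := fun h => hw0 (Ideal.absNorm_eq_zero_iff.1 h)
    exact_mod_cast Nat.one_le_iff_ne_zero.2 h1
  have hr0 : 0 < rad t := by linarith
  have h3 : 3 * hgt (-p.1) = Real.log (height t ^ 3) := by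
    rw [hhg, Real.log_pow]
    push_cast
    ring
  have hrl : Real.log (nn (sp (-p.1) \ T2 K)) ≤ Real.log (rad t) :=
    Real.log_le_log (nn_pos _) (nn_le_rad ht htl _ Finset.sdiff_subset)
  have l1 : 0 ≤ Real.log (nn (AA (crv p) ∩ sp (-p.1))) := Real.log_nonneg (one_le_nn _)
  have l2 : 0 ≤ Real.log (nn (AA (crv p) \ sp (-p.1))) := Real.log_nonneg (one_le_nn _)
  have hbase : ∀ R' : ℝ, 1 ≤ R' → R' / 2 * rad t ≤ height t ^ 3 →
      Real.log (R' / 2) + Real.log (rad t) ≤ 3 * hgt (-p.1) := by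
    intro R' h1 h2
    rw [h3, ← Real.log_mul (by positivity) hr0.ne']
    exact Real.log_le_log (by positivity) h2
  by_cases hA : nn (AA (crv p)) ≤ R
  · -- the triple is far out
    have h5 : R ≤ (Ideal.absNorm w : ℝ) ∨ shp σ τ t ∉ KK R ×ˢ KK R := by
      by_contra hc
      rw [not_or, not_not, not_le] at hc
      refine hn ⟨hA, t, ht, htl, ?_, hc.2⟩
      rw [← hwN]
      exact mul_le_mul_of_nonneg_right hc.1.le hr0.le
    have h6 := hbase R hR (hH R hR h5)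
    linarith
  · rw [not_le] at hA
    have h6 := hbase 1 le_rfl (hH 1 le_rfl (Or.inl hNw))
    have h7 : nn (AA (crv p)) = nn (AA (crv p) ∩ sp (-p.1)) * nn (AA (crv p) \ sp (-p.1)) := by
      rw [← nn_union (Finset.disjoint_sdiff_inter _ _).symm, Finset.union_comm, Finset.sdiff_union_inter]
    have h8 : Real.log R ≤ Real.log (nn (AA (crv p) ∩ sp (-p.1))) + Real.log (nn (AA (crv p) \ sp (-p.1))) := by
      rw [← Real.log_mul (nn_pos _).ne' (nn_pos _).ne', ← h7]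
      exact Real.log_le_log (by linarith) hA.le
    have h9 : Real.log (R / 2) = Real.log R + Real.log (1 / 2) := by
      rw [← Real.log_mul (by positivity) (by norm_num)]
      congr 1
      ring
    linarith

theorem tailx (hfib : S_FIB) (hhgt : S_HGTX) (hlam : S_LAM) (hht : S_HT) (hrad : S_RAD) : S_TAILX := by
  intro K _ _ σ τ hG
  classical
  obtain ⟨-, hfb⟩ := hfib K
  have hfin : ∀ X : ℝ, {p : K × Tw K | Ok p ∧ cond (crv p) ≤ X}.Finite := by
    intro X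
    obtain ⟨C, -, h⟩ := cl2_upper K 1 one_pos
    obtain ⟨h1, -⟩ := h (max X 1) (le_max_right _ _)
    refine (h1.biUnion fun q _ => (hfb q).1).subset ?_
    intro p hp
    rw [Set.mem_iUnion₂]
    exact ⟨cl (crv p), ⟨crv p, rfl, crv_disc hp.1, two_of_pm (crv_pm hp.1), hp.2.trans (le_max_left _ _)⟩,
      hp.1, rfl⟩
  refine ⟨hfin, fun ε hε => ?_⟩
  obtain ⟨C, ν, hC, hν, hct⟩ := Pool.Agent.R365.CV.curve_tail K (1 / 4) (by norm_num) (by norm_num)
  obtain ⟨y, hy⟩ : ∃ y : ℝ, y = max 0 (Real.log (12 * C / ε)) := ⟨_, rfl⟩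
  have hy0 : 0 ≤ y := by rw [hy]; exact le_max_left _ _
  have hyε : 6 * (C * Real.exp (-y)) ≤ ε / 2 := by
    have h1 : Real.log (12 * C / ε) ≤ y := by rw [hy]; exact le_max_right _ _
    have h2 : 12 * C / ε ≤ Real.exp y := by
      rw [← Real.log_le_iff_le_exp (by positivity)]
      exact h1
    have h3 : 0 < Real.exp y := Real.exp_pos _
    rw [div_le_iff₀ hε] at h2
    rw [Real.exp_neg, ← div_eq_mul_inv, ← mul_div_assoc, div_le_iff₀ h3]
    linarith
  have hR1 : 1 ≤ 2 * Real.exp (4 * y) := by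
    have : 1 ≤ Real.exp (4 * y) := Real.one_le_exp (by linarith)
    linarith
  refine ⟨2 * Real.exp (4 * y), hR1, ?_⟩
  have hlogR : Real.log (2 * Real.exp (4 * y) / 2) = 4 * y := by
    rw [mul_div_cancel_left₀ _ two_ne_zero, Real.log_exp]
  have hev : ∀ᶠ X : ℝ in atTop, 6 * (C * X ^ (-ν)) ≤ ε / 2 := by
    have h1 : Tendsto (fun X : ℝ => 6 * (C * X ^ (-ν))) atTop (𝓝 (6 * (C * 0))) :=
      ((tendsto_rpow_neg_atTop hν).const_mul C).const_mul 6
    rw [mul_zero, mul_zero] at h1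
    exact (h1.eventually (gt_mem_nhds (by positivity : (0 : ℝ) < ε / 2))).mono fun X h => h.le
  filter_upwards [hev, eventually_ge_atTop (1 : ℝ)] with X hX hX1
  set R : ℝ := 2 * Real.exp (4 * y) with hRdef
  set S : Set (K × Tw K) := {p : K × Tw K | Ok p ∧ cond (crv p) ≤ X ∧ ¬ (nn (AA (crv p)) ≤ R ∧
      ∃ t : 𝓞 K × 𝓞 K × 𝓞 K, Triple t ∧ lamT t = p.1 ∧
        (Ideal.absNorm (Ideal.span {t.1 * t.2.1 * t.2.2}) : ℝ) ≤ R * rad t ∧
        shp σ τ t ∈ KK R ×ˢ KK R)} with hS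
  have hSf : S.Finite := (hfin X).subset fun p hp => ⟨hp.1, hp.2.1⟩
  set F := hSf.toFinset with hF
  have hmem : ∀ p, p ∈ F ↔ p ∈ S := fun p => Set.Finite.mem_toFinset _
  have hcard : S.ncard = F.card := Set.ncard_eq_toFinset_card S hSf
  have h6 : F.card ≤ 6 * (F.image fun p => cl (crv p)).card := by
    refine Finset.card_le_mul_card_image F 6 fun q _ => ?_
    rw [← Set.ncard_coe_finset]
    refine (Set.ncard_le_ncard ?_ (hfb q).1).trans (hfb q).2
    intro p hp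
    rw [Finset.mem_coe, Finset.mem_filter, hmem] at hp
    exact ⟨hp.1.1, hp.2⟩
  have h7 := hct X (Real.log (R / 2)) hX1 (F.image fun p => cl (crv p)) (by
    intro q hq
    obtain ⟨p, hp, rfl⟩ := Finset.mem_image.1 hq
    rw [hmem] at hp
    refine ⟨crv p, rp p.2, rp p.2 * p.1, rfl, crv_disc hp.1, crv_pm hp.1, hp.2.1, ?_⟩
    rw [mul_div_cancel_left₀ _ (rp_ne p.2)]
    exact tail_ineq hhgt hlam hht hrad hG hR1 hp.1 hp.2.2)
  rw [hlogR] at h7
  have e1 : -(1 / 4 * (4 * y)) = -y := by ring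
  rw [e1] at h7
  have hX0 : 0 ≤ X ^ (2 / 3 : ℝ) := by positivity
  rw [hcard]
  calc (F.card : ℝ) ≤ 6 * ((F.image fun p => cl (crv p)).card : ℝ) := by exact_mod_cast h6
    _ ≤ 6 * (C * (Real.exp (-y) + X ^ (-ν)) * X ^ (2 / 3 : ℝ)) := mul_le_mul_of_nonneg_left h7 (by norm_num)
    _ = (6 * (C * Real.exp (-y)) + 6 * (C * X ^ (-ν))) * X ^ (2 / 3 : ℝ) := by ring
    _ ≤ ε * X ^ (2 / 3 : ℝ) := mul_le_mul_of_nonneg_right (by linarith) hX0

end Pool.Agent.P8H21.FF
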